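import Pool.Agent.H.MP_0be93d_co.B

namespace Pool.Agent.Results.MP_0be93d_co.Indep

open Matrix Cardinal

/-- The unit sphere of `ℝ³`. -/
abbrev S2 := {v : Fin 3 → ℝ // v ⬝ᵥ v = 1}

/-- The orthogonal group `O(3)`. -/
abbrev O3 := Matrix.orthogonalGroup (Fin 3) ℝ

/-- The natural action of `O(3)` on the sphere: `x ↦ g x`. -/
def act (g : O3) (x : S2) : S2 := ⟨g.1 *ᵥ x.1, (Pool.Agent.H.MP_0be93d_co.dot g _ _).trans x.2⟩

/-- `c` is a `Γ`-distinguishing colouring. -/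
def Dist (Γ : Set O3) {k : ℕ} (c : S2 → Fin k) : Prop := ∀ g ∈ Γ, c ∘ act g = c → g = 1

/-- The distinguishing number `D_Γ(S²)`. -/
noncomputable def D (Γ : Set O3) : ℕ := sInf {k | ∃ c : S2 → Fin k, Dist Γ c}

/-- The precolouring extension property `P(W, Γ)`. -/
def P (W : Set S2) (Γ : Set O3) : Prop :=
  ∀ c : ↥Wᶜ → Fin (D Γ), ∃ c' : S2 → Fin (D Γ), (∀ x : ↥Wᶜ, c' x = c x) ∧ Dist Γ c'

/-- There is an uncountable `W` with trivial pointwise stabiliser in `Γ` for which `P(W, Γ)` fails. -/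
def Fails (Γ : Set O3) : Prop :=
  ∃ W : Set S2, ¬ W.Countable ∧ (∀ g ∈ Γ, (∀ x ∈ W, act g x = x) → g = 1) ∧ ¬ P W Γ

theorem result : (Fails Set.univ ↔ (2 : Cardinal.{0}) ^ ℵ₁ = 2 ^ ℵ₀) ∧
    (Fails {g | g.1.det = 1} ↔ (2 : Cardinal.{0}) ^ ℵ₁ = 2 ^ ℵ₀) := by
  rw [two_power_aleph0]
  exact ⟨Pool.Agent.H.MP_0be93d_co.main (Set.subset_univ _), Pool.Agent.H.MP_0be93d_co.main subset_rfl⟩

end Pool.Agent.Results.MP_0be93d_co.Indep
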